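import Pool.Agent.TH771.PN.Gam
import Pool.Agent.TH771.CX.Synd2
import Pool.Agent.W900.SP.Sim
import Pool.Agent.H943R5.GC.U2B

/-!
# The capital of the gambler is computable in polynomial time relative to the oracle
-/

set_option autoImplicit false

namespace Pool.Agent.TH771.PN

open Pool.Agent.NPC Pool.Agent.H628R3.RO
open Pool.Agent.W900.SP (lk lk_map poly_lk)
open Pool.Agent.TH771.CX (dg dgs poly_dgs)
open Pool.Agent.H943R5.GC (U2B.u_min)

theorem lo_eq (s : ℕ) : lo s = (s + 1).bits.length - 1 := by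
  rw [Nat.size_eq_bits_len]
  have h1 : (s + 1).size ≤ lo s + 1 := Nat.size_le.2 (lt_two_pow_lo s)
  have h2 : lo s < (s + 1).size := Nat.lt_size.2 (two_pow_lo s)
  omega

theorem lo_le (s : ℕ) : lo s ≤ s := by
  have h1 := two_pow_lo s
  have h2 : lo s < 2 ^ lo s := Nat.lt_two_pow_self
  omega

section

variable {α : Type} [TEnc α]

theorem u_lo {s : α → ℕ} (hs : UPoly s) : UPoly (fun a => lo (s a)) :=
  UPoly.of_le ((Poly.sub (Poly.length (Poly.natBits (Poly.succ hs.toPoly)))
    (NPC.Poly.const 1)).congr fun a => (lo_eq (s a)).symm) hs fun a => lo_le (s a)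

theorem u_LC {s : α → ℕ} (hs : UPoly s) : UPoly (fun a => LC (s a)) := by
  unfold LC
  exact (UPoly.eval hs (32 * (Polynomial.X + 1) ^ 5)).congr fun a => by simp

theorem p_PP {s t : α → ℕ} (hs : UPoly s) (ht : UPoly t) : Poly (fun a => PP (s a) (t a)) := by
  unfold PP
  exact Poly.append (p_replicate hs true) (Poly.cons (NPC.Poly.const false) (p_replicate ht true))

theorem p_dg {l : α → List Bool} {i : α → ℕ} (hl : Poly l) (hi : Poly i) :
    Poly (fun a => dg (l a) (i a)) := by
  unfold dg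
  refine Poly.decide_eq (Poly.mod (Poly.length ?_) (NPC.Poly.const 2)) (NPC.Poly.const 1)
  refine Poly.filter (p := fun (a : α) j => (l a).getD j false && (Nat.bits j).getD (i a) false)
    (UPoly.range (UPoly.length hl)) ?_
  exact Poly.and (Poly.getD (hl.comp (Poly.fst Poly.id)) (Poly.snd Poly.id) (NPC.Poly.const false))
    (Poly.getD (Poly.natBits (Poly.snd Poly.id)) (hi.comp (Poly.fst Poly.id))
      (NPC.Poly.const false))

end

/-- the prefix in the input -/
def wz (z : List Bool) : List Bool := (unpair (unpair z).2).2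

/-- the number `k` in the input -/
def kz (z : List Bool) : ℕ := (unpair z).1.length

theorem wz_inp (k r : ℕ) (w : List Bool) : wz (inp k r w) = w := by
  unfold wz inp
  rw [unpair_pairBits, unpair_pairBits]

theorem kz_inp (k r : ℕ) (w : List Bool) : kz (inp k r w) = k := by
  unfold kz inp
  rw [unpair_pairBits, List.length_replicate]

/-- the level, capped -/
def sc (w : List Bool) (s : ℕ) : ℕ := min s w.length

/-- the questions -/
def Qw (w : List Bool) : List (List Bool) :=
  (List.range w.length).flatMap fun s => (List.range (LC (sc w s))).map fun t =>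
    PP (sc w s) (min t (LC (sc w s)))

theorem u_sc {α : Type} [TEnc α] {w : α → List Bool} {s : α → ℕ} (hw : Poly w) (hs : Poly s) :
    UPoly (fun a => sc (w a) (s a)) := U2B.u_min hs (UPoly.length hw)

theorem p_Qw : Poly Qw := by
  unfold Qw
  refine Poly.flatMap (F := fun w s => (List.range (LC (sc w s))).map fun t =>
    PP (sc w s) (min t (LC (sc w s)))) (UPoly.range (UPoly.length Poly.id)) ?_
  have h1 : UPoly (fun p : List Bool × ℕ => sc p.1 p.2) :=
    u_sc (Poly.fst Poly.id) (Poly.snd Poly.id)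
  refine NPC.Poly.map (F := fun (p : List Bool × ℕ) t => PP (sc p.1 p.2)
    (min t (LC (sc p.1 p.2)))) (UPoly.range (u_LC h1)) ?_
  have h2 : UPoly (fun p : (List Bool × ℕ) × ℕ => sc p.1.1 p.1.2) :=
    h1.comp (Poly.fst Poly.id)
  exact p_PP h2 (U2B.u_min (Poly.snd Poly.id) (u_LC h2))

/-- the word of the level, from the answers -/
def wd (w c : List Bool) (s : ℕ) : List Bool :=
  (List.range (LC (sc w s))).map fun t => lk (Qw w) c (PP (sc w s) (min t (LC (sc w s))))

theorem p_wd {α : Type} [TEnc α] {w c : α → List Bool} {s : α → ℕ} (hw : Poly w) (hc : Poly c)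
    (hs : Poly s) : Poly (fun a => wd (w a) (c a) (s a)) := by
  unfold wd
  refine NPC.Poly.map (F := fun a t => lk (Qw (w a)) (c a) (PP (sc (w a) (s a))
    (min t (LC (sc (w a) (s a)))))) (UPoly.range (u_LC (u_sc hw hs))) ?_
  have h2 : UPoly (fun p : α × ℕ => sc (w p.1) (s p.1)) :=
    u_sc (hw.comp (Poly.fst Poly.id)) (hs.comp (Poly.fst Poly.id))
  exact poly_lk ((p_Qw.comp (hw.comp (Poly.fst Poly.id)))) (hc.comp (Poly.fst Poly.id))
    (p_PP h2 (U2B.u_min (Poly.snd Poly.id) (u_LC h2)))

theorem sc_eq {w : List Bool} {s : ℕ} (h : s < w.length) : sc w s = s := min_eq_left h.le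

theorem wd_eq {A : Oracle} {w : List Bool} {s : ℕ} (h : s < w.length) :
    wd w ((Qw w).map A) s = word A s := by
  unfold wd word
  rw [sc_eq h]
  refine List.map_congr_left fun t ht => ?_
  rw [List.mem_range] at ht
  rw [min_eq_left ht.le, Bool.eq_iff_iff, lk_map]
  refine ⟨fun h => h.2, fun h1 => ⟨?_, h1⟩⟩
  unfold Qw
  rw [List.mem_flatMap]
  refine ⟨s, List.mem_range.2 h, List.mem_map.2 ⟨t, ?_, ?_⟩⟩
  · rw [sc_eq h]
    exact List.mem_range.2 ht
  · rw [sc_eq h, min_eq_left ht.le]

/-- the factor of the level, from the answers -/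
def bq (s₀ : ℕ) (w c : List Bool) (s : ℕ) : ℕ :=
  if decide (s₀ ≤ s) && (dgs (2 * (lo (sc w s) + 1)) (wd w c s)).all (fun b => !b) then
    if (List.range (min (w.length - sc w s) (ln (sc w s)))).all (fun i =>
        decide (w.getD (sc w s + i) false = dg (wd w c s) (2 * (lo (sc w s) + 1) + i))) then
      2 ^ min (w.length - sc w s) (ln (sc w s)) else 0
  else 1

theorem p_bq (s₀ : ℕ) {α : Type} [TEnc α] {w c : α → List Bool} {s : α → ℕ} (hw : Poly w)
    (hc : Poly c) (hs : Poly s) : Poly (fun a => bq s₀ (w a) (c a) (s a)) := by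
  unfold bq ln
  have h1 := u_sc hw hs
  have h2 := u_lo h1
  have h3 := p_wd hw hc hs
  have h4 : UPoly (fun a => 2 * (lo (sc (w a) (s a)) + 1)) :=
    UPoly.mul (UPoly.const 2) (UPoly.add h2 (UPoly.const 1))
  have h5 : UPoly (fun a => min ((w a).length - sc (w a) (s a)) (3 * (lo (sc (w a) (s a)) + 1))) :=
    U2B.u_min (Poly.sub (UPoly.length hw).toPoly h1.toPoly)
      (UPoly.mul (UPoly.const 3) (UPoly.add h2 (UPoly.const 1)))
  refine Poly.ite (Poly.decide_bool (Poly.and (Poly.decide_le (NPC.Poly.const s₀) hs)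
    (Poly.all (p := fun (_ : α) b => !b) (poly_dgs h4 h3) (Poly.not (Poly.snd Poly.id)))))
    (Poly.ite (Poly.decide_bool ?_) ?_ (NPC.Poly.const 0)) (NPC.Poly.const 1)
  · refine Poly.all (p := fun (a : α) i => decide ((w a).getD (sc (w a) (s a) + i) false =
      dg (wd (w a) (c a) (s a)) (2 * (lo (sc (w a) (s a)) + 1) + i))) h5.range ?_
    refine Poly.decide_eq (Poly.getD (hw.comp (Poly.fst Poly.id))
      (Poly.add (h1.toPoly.comp (Poly.fst Poly.id)) (Poly.snd Poly.id)) (NPC.Poly.const false)) ?_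
    exact p_dg (h3.comp (Poly.fst Poly.id))
      (Poly.add (h4.toPoly.comp (Poly.fst Poly.id)) (Poly.snd Poly.id))
  · exact Pool.Agent.H622R2.Exp.M1.poly_two_pow h5

theorem bq_eq {A : Oracle} {s₀ : ℕ} {w : List Bool} {s : ℕ} (h : s < w.length) :
    bq s₀ w ((Qw w).map A) s = bt A s₀ s w := by
  classical
  unfold bq bt
  rw [wd_eq h, sc_eq h]
  have e1 : (decide (s₀ ≤ s) && (dgs (2 * (lo s + 1)) (word A s)).all (fun b => !b)) = true ↔
      s₀ ≤ s ∧ Mk A s := by
    rw [Bool.and_eq_true, decide_eq_true_iff, List.all_eq_true]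
    refine and_congr Iff.rfl ?_
    unfold Mk dgs
    constructor
    · intro h d hd
      have := h (dg (word A s) d) (List.mem_map.2 ⟨d, List.mem_range.2 hd, rfl⟩)
      simpa using this
    · intro h b hb
      obtain ⟨d, hd, rfl⟩ := List.mem_map.1 hb
      rw [h d (List.mem_range.1 hd)]
      rfl
  have e2 : (List.range (min (w.length - s) (ln s))).all (fun i =>
      decide (w.getD (s + i) false = dg (word A s) (2 * (lo s + 1) + i))) = true ↔
      ∀ i < min (w.length - s) (ln s), w.getD (s + i) false = ms A s i := by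
    rw [List.all_eq_true]
    unfold ms
    constructor
    · intro h i hi
      have := h i (List.mem_range.2 hi)
      exact decide_eq_true_iff.1 this
    · intro h i hi
      exact decide_eq_true_iff.2 (h i (List.mem_range.1 hi))
  refine if_congr e1 (if_congr e2 rfl rfl) rfl

/-- the numerator -/
def nu (s₀ : ℕ) (w c : List Bool) : ℕ :=
  ((List.range w.length).map fun s => 2 ^ (2 * (lo w.length - lo (sc w s))) * bq s₀ w c s).sum +
    (3 * 2 ^ lo w.length - (w.length + 1))

theorem p_nu (s₀ : ℕ) {α : Type} [TEnc α] {w c : α → List Bool} (hw : Poly w) (hc : Poly c) :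
    Poly (fun a => nu s₀ (w a) (c a)) := by
  unfold nu
  have h0 := UPoly.length hw
  have h1 := u_lo h0
  refine Poly.add (Poly.sum (NPC.Poly.map (F := fun a s =>
    2 ^ (2 * (lo (w a).length - lo (sc (w a) s))) * bq s₀ (w a) (c a) s) h0.range ?_)) ?_
  · have h2 : UPoly (fun p : α × ℕ => lo (w p.1).length) := h1.comp (Poly.fst Poly.id)
    have h3 : UPoly (fun p : α × ℕ => sc (w p.1) p.2) :=
      u_sc (hw.comp (Poly.fst Poly.id)) (Poly.snd Poly.id)
    have h4 : UPoly (fun p : α × ℕ => lo (w p.1).length - lo (sc (w p.1) p.2)) :=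
      UPoly.of_le (Poly.sub h2.toPoly (u_lo h3).toPoly) h2 fun _ => Nat.sub_le _ _
    exact Poly.mul (Pool.Agent.H622R2.Exp.M1.poly_two_pow (UPoly.mul (UPoly.const 2) h4))
      (p_bq s₀ (hw.comp (Poly.fst Poly.id)) (hc.comp (Poly.fst Poly.id)) (Poly.snd Poly.id))
  · exact Poly.sub (Poly.mul (NPC.Poly.const 3) (Pool.Agent.H622R2.Exp.M1.poly_two_pow h1))
      (Poly.add h0.toPoly (NPC.Poly.const 1))

theorem sum_range_map (f : ℕ → ℕ) (n : ℕ) :
    ((List.range n).map f).sum = ∑ s ∈ Finset.range n, f s := by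
  induction n with
  | zero => simp
  | succ n ih => rw [List.range_succ, List.map_append, List.sum_append, ih,
      Finset.sum_range_succ]; simp

/-- the algorithm -/
noncomputable def FF (A : Oracle) (s₀ : ℕ) (z : List Bool) : List Bool :=
  pairBits (nu s₀ (wz z) ((Qw (wz z)).map A)).bits
    (List.replicate (kz z + (2 * lo (wz z).length + 1)) true)

theorem isFP_FF (A : Oracle) (s₀ : ℕ) : IsFP A (FF A s₀) := by
  have hw : Poly wz := by
    unfold wz
    exact Poly.snd (poly_unpair.comp (Poly.snd poly_unpair))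
  have hk : UPoly kz := by
    unfold kz
    exact UPoly.length (Poly.fst poly_unpair)
  refine IsFP.tt (A := A) (Q := fun z => Qw (wz z)) (H := fun p : List Bool × List Bool =>
    pairBits (nu s₀ (wz p.1) p.2).bits
      (List.replicate (kz p.1 + (2 * lo (wz p.1).length + 1)) true)) (p_Qw.comp hw) ?_
  have hw' : Poly (fun p : List Bool × List Bool => wz p.1) := hw.comp (Poly.fst Poly.id)
  refine Pool.Agent.H622R2.poly_pairBits (Poly.natBits (p_nu s₀ hw' (Poly.snd Poly.id)))
    (p_replicate ?_ true)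
  exact UPoly.add (hk.comp (Poly.fst Poly.id)) (UPoly.add (UPoly.mul (UPoly.const 2)
    (u_lo (UPoly.length hw'))) (UPoly.const 1))

theorem dya_FF (A : Oracle) (s₀ k r : ℕ) (w : List Bool) :
    dya (FF A s₀ (inp k r w)) = dn A s₀ k w := by
  unfold dya FF
  rw [unpair_pairBits, wz_inp, kz_inp]
  dsimp only
  rw [valB_bits, List.length_replicate]
  unfold nu dn
  rw [sum_range_map]
  have h1 : ∑ s ∈ Finset.range w.length, 2 ^ (2 * (lo w.length - lo (sc w s))) *
      bq s₀ w ((Qw w).map A) s =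
      ∑ s ∈ Finset.range w.length, 2 ^ (2 * (lo w.length - lo s)) * bt A s₀ s w := by
    refine Finset.sum_congr rfl fun s hs => ?_
    rw [Finset.mem_range] at hs
    rw [bq_eq hs, sc_eq hs]
  have h2 : w.length + 1 ≤ 3 * 2 ^ lo w.length := by
    have := lt_two_pow_lo w.length
    rw [pow_succ] at this
    omega
  rw [h1]
  push_cast [Nat.cast_sub h2]
  unfold rm
  have h3 : ∀ s ∈ Finset.range w.length, wt s * (bt A s₀ s w : ℝ) =
      (2 ^ (2 * (lo w.length - lo s)) * (bt A s₀ s w : ℝ)) / 2 ^ (2 * lo w.length + 1) := by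
    intro s hs
    rw [Finset.mem_range] at hs
    have h4 := lo_mono hs.le
    unfold wt
    have h5 : (2 : ℝ) ^ (2 * lo w.length + 1) =
        2 ^ (2 * (lo w.length - lo s)) * 2 ^ (2 * lo s + 1) := by
      rw [← pow_add]
      congr 1
      omega
    rw [h5]
    field_simp
  rw [Finset.sum_congr rfl h3, ← Finset.sum_div, ← add_div, pow_add, one_div_pow]
  have h6 : (0 : ℝ) < 2 ^ k := by positivity
  have h7 : (0 : ℝ) < 2 ^ (2 * lo w.length + 1) := by positivity
  field_simp

end Pool.Agent.TH771.PN
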