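import Pool.Agent.TH771.PN.Up
import Pool.Agent.TH93.ML.Main
import Pool.Agent.TH93.GL.Np
import Pool.Agent.W900.SP.Ran
import Pool.Agent.TH771.GC.Close

/-!
# The threshold for the measure of `NP`
-/

set_option autoImplicit false

namespace Pool.Agent.TH771.PN

open MeasureTheory Filter Pool.Agent.NPC Pool.Agent.H620R2.Gauge
open Pool.Agent.H628R3.RO (randomOracle)
open Pool.Agent.W900.CH (Close)
open Pool.Agent.TH771.CS (Far isFP_finite_iff finite_of_close)
open Pool.Agent.TH93.ML (NullC InE InFew enc law)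
open Pool.Agent.TH93.GL (NiceT InGuess)

theorem fp_iff (A : Oracle) (F : List Bool → List Bool) :
    Pool.Agent.H628R3.RO.IsFP A F ↔ IsFP A F := Pool.Agent.W900.SP.isFP_iff

theorem str_eq (i : ℕ) : Pool.Agent.H583R2.str i = str i := Pool.Agent.H943R5.GC.U2B.st_eq i

theorem chi_eq (L : Set (List Bool)) (n : ℕ) : chi L n = Pool.Agent.TH93.ML.chi L n := by
  unfold chi Pool.Agent.TH93.ML.chi
  refine List.map_congr_left fun i _ => ?_
  rw [str_eq]

theorem PNull.nullC {A : Oracle} {X : Set (Set (List Bool))} (h : PNull A X) (j : ℕ) :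
    NullC j A X := by
  obtain ⟨d, F, h1, h2, h3, h4, h5⟩ := h
  have hF : IsFP A (fun z => false :: F (unpair z).2) := by
    rw [← fp_iff]
    exact Pool.Agent.H628R3.RO.IsFP.comp (Pool.Agent.H628R3.RO.IsFP.of_poly
      (Poly.cons (NPC.Poly.const false) Poly.id)) (Pool.Agent.H628R3.RO.IsFP.comp h1
        (Pool.Agent.H628R3.RO.IsFP.of_poly (Poly.snd poly_unpair)))
  refine ⟨d, _, hF, fun k r w => ?_, fun k w => (h2 k w).1, fun k w => ?_, h3,
    fun k L hL => ?_⟩
  · have h6 := h4 k r w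
    have h7 : Pool.Agent.TH93.ML.dya (false :: F (unpair (enc j k r w)).2) =
        dya (F (inp k r w)) := by
      unfold Pool.Agent.TH93.ML.dya enc dya inp
      rw [unpair_pairBits]
      simp
    rw [h7]
    exact h6
  · have := (h2 k w).2
    linarith
  · obtain ⟨n, hn⟩ := h5 k L hL
    exact ⟨n, by rw [← chi_eq]; exact hn⟩

/-- the lower bound, a property which does not depend on finitely many strings -/
def Big (A : Oracle) : Prop :=
  ∀ j : ℕ, 1 ≤ j → (∀ g : ℕ → ℕ, NiceT (fun n => n) g → (∀ c : ℕ, ∀ᶠ n in atTop, c * n ^ j ≤ g n) →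
      ∃ L, InFew g A L ∧ ¬ NullC j A {L}) ∧
    ¬ NullC j A {L | (∃ c : ℕ, InFew (fun n => c * n ^ j) A L) ∧ InE j A L}

theorem ae_big : ∀ᵐ A ∂randomOracle, Big A := by
  rw [← Pool.Agent.TH771.GC.ran_eq]
  filter_upwards [law] with A hA j hj
  refine ⟨fun g hg h => ?_, (hA j hj).2⟩
  have h1 := (hA j hj).1 g hg
  exact (h1.out 2 1).1 h

theorem big_congr {A A' : Oracle} (h : ∀ F, IsFP A F ↔ IsFP A' F) (hA : Big A) : Big A' := by
  simpa only [Big, NullC, InFew, InE, h] using hA

theorem big_finite {O A : Oracle} (h : {y : List Bool | A y ≠ O y}.Finite) (hO : Big O) :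
    Big A := by
  refine big_congr (fun F => ?_) hO
  rw [← fp_iff, ← fp_iff]
  exact (isFP_finite_iff h F).symm

end Pool.Agent.TH771.PN
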