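import Pool.Agent.H628R3.RO.Defs
import Pool.Agent.NPC.Num
import Pool.Agent.NPC.Dec
import Pool.Agent.H583R2.Str

/-!
# Resource-bounded measure zero relative to an oracle
-/

set_option autoImplicit false

namespace Pool.Agent.TH771.PN

open Pool.Agent.NPC Pool.Agent.H628R3.RO

/-- the dyadic rational coded by a string: numerator in binary, exponent of the denominator in
unary -/
noncomputable def dya (z : List Bool) : ℝ := (valB (unpair z).1 : ℝ) / 2 ^ (unpair z).2.length

open Classical in
/-- the first `n` bits of the characteristic sequence of `L`, for the standard enumeration `str` of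
all strings by length and lexicographically -/
noncomputable def chi (L : Set (List Bool)) (n : ℕ) : List Bool :=
  (List.range n).map fun i => decide (Pool.Agent.H583R2.str i ∈ L)

/-- the input `(k, r, w)` -/
def inp (k r : ℕ) (w : List Bool) : List Bool :=
  pairBits (List.replicate k true) (pairBits (List.replicate r true) w)

/-- The class `X` has `p`-measure `0` relative to the oracle `A`: density functions `d k` with
`d k [] ≤ 2 ^ (-k)` which cover `X`, and which are approximated within `2 ^ (-r)` by dyadic
rationals computed in time polynomial in `k`, `r` and `w.length` relative to `A`. -/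
def PNull (A : Oracle) (X : Set (Set (List Bool))) : Prop :=
  ∃ (d : ℕ → List Bool → ℝ) (F : List Bool → List Bool), IsFP A F ∧
    (∀ k w, 0 ≤ d k w ∧ (d k (w ++ [false]) + d k (w ++ [true])) / 2 ≤ d k w) ∧
    (∀ k, d k [] ≤ (1 / 2) ^ k) ∧
    (∀ k r w, |dya (F (inp k r w)) - d k w| ≤ (1 / 2) ^ r) ∧
    ∀ k, ∀ L ∈ X, ∃ n, 1 ≤ d k (chi L n)

theorem PNull.mono {A : Oracle} {X Y : Set (Set (List Bool))} (h : PNull A Y) (hXY : X ⊆ Y) :
    PNull A X := by
  obtain ⟨d, F, h1, h2, h3, h4, h5⟩ := h
  exact ⟨d, F, h1, h2, h3, h4, fun k L hL => h5 k L (hXY hL)⟩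

end Pool.Agent.TH771.PN
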