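import Pool.Agent.TH771.CS.Word

/-!
# Messages which can be written into every oracle with one change

The block of the level `s` consists of the strings `PP s t`, `t < LC s`. The syndrome of the word of
the answers has `5 * q s` digits; the first `2 * q s` digits must be zero (the marker), the others
are the message.
-/

set_option autoImplicit false

namespace Pool.Agent.TH771.PN

open Pool.Agent.NPC Pool.Agent.H628R3.RO MeasureTheory Filter
open Pool.Agent.TH771.CX (dg dgs jst jst_lt dg_jst dg_flip)
open Pool.Agent.TH771.CS (card_zero')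

/-- the logarithm -/
def lo (s : ℕ) : ℕ := Nat.log 2 (s + 1)

theorem two_pow_lo (s : ℕ) : 2 ^ lo s ≤ s + 1 := Nat.pow_log_le_self 2 (by omega)

theorem lt_two_pow_lo (s : ℕ) : s + 1 < 2 ^ (lo s + 1) := Nat.lt_pow_succ_log_self (by norm_num) _

theorem lo_mono {s s' : ℕ} (h : s ≤ s') : lo s ≤ lo s' := Nat.log_mono_right (by omega)

/-- the number of the digits of the syndrome -/
def db (s : ℕ) : ℕ := 5 * (lo s + 1)

/-- the number of the strings in the block -/
def LC (s : ℕ) : ℕ := 32 * (s + 1) ^ 5

theorem two_pow_db (s : ℕ) : 2 ^ db s ≤ LC s := by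
  have h := two_pow_lo s
  unfold db LC
  calc 2 ^ (5 * (lo s + 1)) = 32 * (2 ^ lo s) ^ 5 := by
        rw [mul_comm 5, pow_mul, pow_succ 2 (lo s)]
        ring
    _ ≤ 32 * (s + 1) ^ 5 := Nat.mul_le_mul_left _ (Nat.pow_le_pow_left h 5)

/-- the strings of the block -/
def PP (s t : ℕ) : List Bool := List.replicate s true ++ false :: List.replicate t true

theorem length_PP (s t : ℕ) : (PP s t).length = s + 1 + t := by
  unfold PP
  simp
  omega

theorem PP_inj {s s' t t' : ℕ} (h : PP s t = PP s' t') : s = s' ∧ t = t' := by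
  have h1 := congrArg List.length h
  rw [length_PP, length_PP] at h1
  have h2 := congrArg (fun l => (l.takeWhile (fun b => b)).length) h
  have h3 : ∀ s t, ((PP s t).takeWhile (fun b => b)).length = s := by
    intro s t
    unfold PP
    rw [List.takeWhile_append_of_pos (by
      intro a ha
      rw [List.mem_replicate] at ha
      exact ha.2)]
    simp
  simp only [h3] at h2
  omega

/-- the answers in the block -/
def word (A : Oracle) (s : ℕ) : List Bool := (List.range (LC s)).map fun t => A (PP s t)

theorem length_word (A : Oracle) (s : ℕ) : (word A s).length = LC s := by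
  unfold word
  rw [List.length_map, List.length_range]

theorem getD_word (A : Oracle) (s : ℕ) {t : ℕ} (ht : t < LC s) :
    (word A s).getD t false = A (PP s t) := by
  unfold word
  rw [List.getD_eq_getElem?_getD, List.getElem?_map, List.getElem?_range ht]
  rfl

/-- the marker -/
def Mk (A : Oracle) (s : ℕ) : Prop := ∀ d < 2 * (lo s + 1), dg (word A s) d = false

/-- the message -/
def ms (A : Oracle) (s i : ℕ) : Bool := dg (word A s) (2 * (lo s + 1) + i)

/-- the number with marker zero and the message `μ` -/
def cn (s : ℕ) (μ : ℕ → Bool) : ℕ :=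
  Nat.ofBits fun d : Fin (db s) => decide (2 * (lo s + 1) ≤ d.val) && μ (d.val - 2 * (lo s + 1))

/-- the number of the string that has to be changed -/
def jc (O : Oracle) (s : ℕ) (μ : ℕ → Bool) : ℕ := jst (word O s) (db s) (cn s μ)

theorem dg_of_change {O A : Oracle} {s : ℕ} {μ : ℕ → Bool}
    (h : ∀ t < LC s, A (PP s t) = (O (PP s t) ^^ decide (t = jc O s μ))) {d : ℕ} (hd : d < db s) :
    dg (word A s) d = (decide (2 * (lo s + 1) ≤ d) && μ (d - 2 * (lo s + 1))) := by
  have h1 := dg_jst (l := word O s) (l' := word A s) (b := db s) (c := cn s μ)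
    (by rw [length_word, length_word]) (by rw [length_word]; exact two_pow_db s) (by
      intro j hj
      rw [length_word] at hj
      rw [getD_word _ _ hj, getD_word _ _ hj]
      exact h j hj) hd
  rw [h1]
  unfold cn
  rw [Nat.testBit_ofBits_lt _ _ hd]

theorem mk_of_change {O A : Oracle} {s : ℕ} {μ : ℕ → Bool}
    (h : ∀ t < LC s, A (PP s t) = (O (PP s t) ^^ decide (t = jc O s μ))) : Mk A s := by
  intro d hd
  rw [dg_of_change h (by unfold db; omega), decide_eq_false (by omega), Bool.false_and]

theorem ms_of_change {O A : Oracle} {s : ℕ} {μ : ℕ → Bool}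
    (h : ∀ t < LC s, A (PP s t) = (O (PP s t) ^^ decide (t = jc O s μ))) {i : ℕ}
    (hi : i < 3 * (lo s + 1)) : ms A s i = μ i := by
  unfold ms
  rw [dg_of_change h (by unfold db; omega), decide_eq_true (by omega), Bool.true_and]
  congr 1
  omega

theorem mk_congr {O A : Oracle} {s : ℕ} (h : ∀ t < LC s, A (PP s t) = O (PP s t)) :
    Mk A s ↔ Mk O s := by
  have : word A s = word O s := by
    unfold word
    refine List.map_congr_left fun t ht => ?_
    exact h t (List.mem_range.1 ht)
  unfold Mk
  rw [this]

/-- the probability of a marker in a random oracle -/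
theorem prob_mk (s : ℕ) : randomOracle {O | Mk O s} ≤
    ENNReal.ofReal ((1 / 2) ^ (2 * (lo s + 1))) := by
  classical
  have h := Pool.Agent.W900.RB.prob_le (I := Fin (LC s)) (fun t => PP s t.val)
    (by
      intro t t' h
      exact Fin.ext (PP_inj h).2)
    (fun a => ∀ d < 2 * (lo s + 1), dg (List.ofFn a) d = false) ((1 / 2) ^ (2 * (lo s + 1)))
    (card_zero' ((Nat.pow_le_pow_right (by norm_num) (by unfold db; omega)).trans
      (two_pow_db s)) _ _)
  refine (measure_mono ?_).trans h
  intro O hO d hd
  have h1 := hO d hd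
  have h2 : word O s = List.ofFn (fun t : Fin (LC s) => O (PP s t.val)) := by
    unfold word
    apply List.ext_getElem
    · simp
    · intro n h1 h2
      simp
  rw [← h2]
  exact h1

/-- In almost every oracle there are only finitely many markers. -/
theorem ae_no_mk : ∀ᵐ O ∂randomOracle, ∃ s₀ : ℕ, ∀ s ≥ s₀, ¬ Mk O s := by
  have hpr : ∀ s, randomOracle {O | Mk O s} ≤ ENNReal.ofReal (1 / ((s + 1 : ℕ) : ℝ) ^ 2) := by
    intro s
    refine (prob_mk s).trans (ENNReal.ofReal_le_ofReal ?_)
    have h1 : ((s + 1 : ℕ) : ℝ) ≤ 2 ^ (lo s + 1) := by exact_mod_cast (lt_two_pow_lo s).le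
    have h2 : (0 : ℝ) < ((s + 1 : ℕ) : ℝ) := by positivity
    rw [mul_comm, pow_mul, one_div_pow, one_div_pow]
    exact one_div_le_one_div_of_le (by positivity) (pow_le_pow_left₀ h2.le h1 2)
  have hsum : ∑' s, randomOracle {O | Mk O s} ≠ ⊤ := by
    have h1 : Summable (fun s : ℕ => 1 / ((s + 1 : ℕ) : ℝ) ^ 2) :=
      (summable_nat_add_iff 1).2 (Real.summable_one_div_nat_pow.2 (by norm_num))
    refine ne_top_of_le_ne_top ?_ (ENNReal.tsum_le_tsum hpr)
    rw [← ENNReal.ofReal_tsum_of_nonneg (fun s => by positivity) h1]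
    exact ENNReal.ofReal_ne_top
  have h2 : ∀ᵐ O ∂randomOracle, ∀ᶠ s in atTop, O ∉ {O | Mk O s} := ae_eventually_notMem hsum
  filter_upwards [h2] with O hO
  exact eventually_atTop.1 hO

end Pool.Agent.TH771.PN
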