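import Pool.Agent.TH771.PN.Defs
import Pool.Agent.TH771.PN.Word

/-!
# The gambler

On the level `s` an amount `2 ^ (-(2 * lo s + 1))` is bet on the message of this level, if there is
a marker.
-/

set_option autoImplicit false

namespace Pool.Agent.TH771.PN

open Pool.Agent.NPC Pool.Agent.H628R3.RO

/-- the amount for the level `s` -/
noncomputable def wt (s : ℕ) : ℝ := 1 / 2 ^ (2 * lo s + 1)

/-- the amount for all levels from `N` on -/
noncomputable def rm (N : ℕ) : ℝ := (3 * 2 ^ lo N - ((N : ℝ) + 1)) / 2 ^ (2 * lo N + 1)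

theorem rm_zero : rm 0 = 1 := by
  have : lo 0 = 0 := by unfold lo; simp
  unfold rm
  rw [this]
  norm_num

theorem lt_two_pow_lo' (s : ℕ) : (s : ℝ) + 1 < 2 * 2 ^ lo s := by
  have h := lt_two_pow_lo s
  rw [pow_succ] at h
  have h2 : ((s + 1 : ℕ) : ℝ) < ((2 ^ lo s * 2 : ℕ) : ℝ) := by exact_mod_cast h
  push_cast at h2
  linarith

theorem rm_nonneg (N : ℕ) : 0 ≤ rm N := by
  unfold rm
  have h := lt_two_pow_lo' N
  have h2 : (0 : ℝ) < 2 ^ lo N := by positivity
  exact div_nonneg (by linarith) (by positivity)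

theorem rm_step (N : ℕ) : rm N = rm (N + 1) + wt N := by
  have h1 := two_pow_lo N
  have h2 := lt_two_pow_lo N
  have h3 := two_pow_lo (N + 1)
  have h4 := lt_two_pow_lo (N + 1)
  have h5 := lo_mono (Nat.le_succ N)
  rcases Nat.eq_or_lt_of_le h5 with h | h
  · unfold rm wt
    rw [← Nat.succ_eq_add_one N, ← h]
    push_cast
    field_simp
    ring
  · have h6 : lo (N + 1) = lo N + 1 := by
      by_contra hne
      have h7 : lo N + 2 ≤ lo (N + 1) := by
        have : lo N < lo (N + 1) := h
        omega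
      have h8 : 2 ^ (lo N + 2) ≤ N + 1 + 1 := (Nat.pow_le_pow_right (by norm_num) h7).trans h3
      rw [pow_succ] at h8
      omega
    have h9 : 2 ^ (lo N + 1) ≤ N + 1 + 1 := by rw [← h6]; exact h3
    have h10 : (N : ℝ) + 1 + 1 = 2 * 2 ^ lo N := by
      have : N + 1 + 1 = 2 ^ (lo N + 1) := by omega
      have h11 : ((N + 1 + 1 : ℕ) : ℝ) = ((2 ^ (lo N + 1) : ℕ) : ℝ) := by rw [this]
      push_cast at h11
      rw [h11, pow_succ]
      ring
    unfold rm wt
    rw [h6]
    push_cast
    have e1 : (N : ℝ) = 2 * 2 ^ lo N - 2 := by linarith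
    rw [e1]
    have e2 : (0 : ℝ) < 2 ^ lo N := by positivity
    have e3 : (2 : ℝ) ^ (2 * (lo N + 1) + 1) = 4 * 2 ^ (2 * lo N + 1) := by ring
    rw [e3, pow_succ (2 : ℝ) (lo N)]
    have e4 : (0 : ℝ) < 2 ^ (2 * lo N + 1) := by positivity
    field_simp
    ring

/-- the length of the message -/
def ln (s : ℕ) : ℕ := 3 * (lo s + 1)

open Classical in
/-- the factor of the level `s` -/
noncomputable def bt (A : Oracle) (s₀ s : ℕ) (w : List Bool) : ℕ :=
  if s₀ ≤ s ∧ Mk A s then
    if ∀ i < min (w.length - s) (ln s), w.getD (s + i) false = ms A s i then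
      2 ^ min (w.length - s) (ln s) else 0
  else 1

theorem bt_eq_one {A : Oracle} {s₀ s : ℕ} {w : List Bool} (h : w.length ≤ s) :
    bt A s₀ s w = 1 := by
  unfold bt
  have h1 : min (w.length - s) (ln s) = 0 := by
    rw [Nat.sub_eq_zero_of_le h, Nat.zero_min]
  rw [h1]
  split_ifs with h2 h3
  · rfl
  · exact absurd (fun i hi => absurd hi (Nat.not_lt_zero i)) h3
  · rfl

theorem bt_step (A : Oracle) (s₀ s : ℕ) (w : List Bool) :
    bt A s₀ s (w ++ [false]) + bt A s₀ s (w ++ [true]) = 2 * bt A s₀ s w := by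
  rcases Nat.lt_or_ge w.length s with h | h
  · rw [bt_eq_one h.le, bt_eq_one (by simpa using h), bt_eq_one (by simpa using h)]
  unfold bt
  by_cases hm : s₀ ≤ s ∧ Mk A s
  swap
  · rw [if_neg hm, if_neg hm, if_neg hm]
  rw [if_pos hm, if_pos hm, if_pos hm]
  have hlen : ∀ b : Bool, (w ++ [b]).length = w.length + 1 := fun b => by simp
  rw [hlen, hlen]
  have hget : ∀ (b : Bool) (i : ℕ), s + i < w.length →
      (w ++ [b]).getD (s + i) false = w.getD (s + i) false := by
    intro b i hi
    rw [List.getD_eq_getElem?_getD, List.getD_eq_getElem?_getD, List.getElem?_append_left hi]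
  rcases Nat.lt_or_ge (w.length - s) (ln s) with h1 | h1
  · have e1 : min (w.length - s) (ln s) = w.length - s := min_eq_left h1.le
    have e2 : min (w.length + 1 - s) (ln s) = (w.length - s) + 1 := by
      rw [min_eq_left (by omega)]
      omega
    rw [e1, e2]
    have hiff : ∀ b : Bool, (∀ i < w.length - s + 1, (w ++ [b]).getD (s + i) false = ms A s i) ↔
        (∀ i < w.length - s, w.getD (s + i) false = ms A s i) ∧ b = ms A s (w.length - s) := by
      intro b
      constructor
      · intro h2
        refine ⟨fun i hi => ?_, ?_⟩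
        · rw [← hget b i (by omega)]
          exact h2 i (by omega)
        · rw [← h2 (w.length - s) (by omega), List.getD_eq_getElem?_getD,
            List.getElem?_append_right (by omega)]
          have : s + (w.length - s) - w.length = 0 := by omega
          rw [this]
          rfl
      · rintro ⟨h2, h3⟩ i hi
        rcases Nat.lt_or_ge i (w.length - s) with h4 | h4
        · rw [hget b i (by omega)]
          exact h2 i h4
        · have h5 : i = w.length - s := by omega
          rw [h5, ← h3, List.getD_eq_getElem?_getD, List.getElem?_append_right (by omega)]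
          have : s + (w.length - s) - w.length = 0 := by omega
          rw [this]
          rfl
    simp only [hiff]
    by_cases h2 : ∀ i < w.length - s, w.getD (s + i) false = ms A s i
    · cases hb : ms A s (w.length - s)
      · rw [if_pos ⟨h2, rfl⟩, if_neg (by simp), if_pos h2, pow_succ]
        ring
      · rw [if_neg (by simp), if_pos ⟨h2, rfl⟩, if_pos h2, pow_succ]
        ring
    · rw [if_neg (fun h3 => h2 h3.1), if_neg (fun h3 => h2 h3.1), if_neg h2]
  · have e1 : min (w.length - s) (ln s) = ln s := min_eq_right h1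
    have e2 : min (w.length + 1 - s) (ln s) = ln s := min_eq_right (by omega)
    rw [e1, e2]
    have hiff : ∀ b : Bool, (∀ i < ln s, (w ++ [b]).getD (s + i) false = ms A s i) ↔
        (∀ i < ln s, w.getD (s + i) false = ms A s i) := by
      intro b
      refine forall_congr' fun i => forall_congr' fun hi => ?_
      rw [hget b i (by omega)]
    simp only [hiff]
    ring

/-- the density functions -/
noncomputable def dn (A : Oracle) (s₀ k : ℕ) (w : List Bool) : ℝ :=
  (1 / 2) ^ k * (∑ s ∈ Finset.range w.length, wt s * bt A s₀ s w + rm w.length)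

theorem dn_nil (A : Oracle) (s₀ k : ℕ) : dn A s₀ k [] = (1 / 2) ^ k := by
  unfold dn
  rw [List.length_nil, Finset.range_zero, Finset.sum_empty, rm_zero]
  ring

theorem wt_nonneg (s : ℕ) : 0 ≤ wt s := by
  unfold wt
  positivity

theorem dn_nonneg (A : Oracle) (s₀ k : ℕ) (w : List Bool) : 0 ≤ dn A s₀ k w := by
  unfold dn
  refine mul_nonneg (by positivity) (add_nonneg (Finset.sum_nonneg fun s _ => ?_) (rm_nonneg _))
  exact mul_nonneg (wt_nonneg s) (by positivity)

theorem dn_step (A : Oracle) (s₀ k : ℕ) (w : List Bool) :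
    (dn A s₀ k (w ++ [false]) + dn A s₀ k (w ++ [true])) / 2 = dn A s₀ k w := by
  unfold dn
  have hlen : ∀ b : Bool, (w ++ [b]).length = w.length + 1 := fun b => by simp
  rw [hlen, hlen, rm_step w.length]
  have h1 : ∑ s ∈ Finset.range (w.length + 1), wt s * (bt A s₀ s (w ++ [false]) : ℝ) +
      ∑ s ∈ Finset.range (w.length + 1), wt s * (bt A s₀ s (w ++ [true]) : ℝ) =
      2 * (∑ s ∈ Finset.range w.length, wt s * (bt A s₀ s w : ℝ) + wt w.length) := by
    rw [← Finset.sum_add_distrib]
    have h2 : ∀ s ∈ Finset.range (w.length + 1), wt s * (bt A s₀ s (w ++ [false]) : ℝ) +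
        wt s * (bt A s₀ s (w ++ [true]) : ℝ) = 2 * (wt s * (bt A s₀ s w : ℝ)) := by
      intro s _
      have h3 := bt_step A s₀ s w
      have h4 : (bt A s₀ s (w ++ [false]) : ℝ) + (bt A s₀ s (w ++ [true]) : ℝ) =
          2 * (bt A s₀ s w : ℝ) := by exact_mod_cast h3
      rw [← mul_add, h4]
      ring
    rw [Finset.sum_congr rfl h2, ← Finset.mul_sum, Finset.sum_range_succ, bt_eq_one le_rfl]
    push_cast
    ring
  linear_combination ((1 / 2 : ℝ) ^ k / 2) * h1

/-- If the message of a level is right then the gambler wins. -/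
theorem one_le_dn {A : Oracle} {s₀ s k : ℕ} (hs : s₀ ≤ s) (hm : Mk A s) (hk : k ≤ lo s)
    {L : Set (List Bool)}
    (h : ∀ i < ln s, (ms A s i = true ↔ Pool.Agent.H583R2.str (s + i) ∈ L)) :
    1 ≤ dn A s₀ k (chi L (s + ln s)) := by
  have hlen : (chi L (s + ln s)).length = s + ln s := by
    unfold chi
    simp
  have h1 : bt A s₀ s (chi L (s + ln s)) = 2 ^ ln s := by
    unfold bt
    rw [if_pos ⟨hs, hm⟩, hlen]
    have e1 : min (s + ln s - s) (ln s) = ln s := by
      rw [Nat.add_sub_cancel_left, min_self]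
    rw [e1, if_pos]
    intro i hi
    rw [Bool.eq_iff_iff, h i hi]
    unfold chi
    rw [List.getD_eq_getElem?_getD, List.getElem?_map, List.getElem?_range (by omega)]
    simp
  have hln : 0 < ln s := by unfold ln; omega
  unfold dn
  rw [hlen]
  have h2 : wt s * (bt A s₀ s (chi L (s + ln s)) : ℝ) ≤
      ∑ s' ∈ Finset.range (s + ln s), wt s' * (bt A s₀ s' (chi L (s + ln s)) : ℝ) :=
    Finset.single_le_sum (f := fun s' => wt s' * (bt A s₀ s' (chi L (s + ln s)) : ℝ))
      (fun s' _ => mul_nonneg (wt_nonneg s') (by positivity)) (Finset.mem_range.2 (by omega))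
  rw [h1] at h2
  have h3 : (2 : ℝ) ^ k ≤ wt s * ((2 ^ ln s : ℕ) : ℝ) := by
    unfold wt ln
    push_cast
    rw [one_div, inv_mul_eq_div, le_div_iff₀ (by positivity), ← pow_add]
    exact pow_le_pow_right₀ (by norm_num) (by omega)
  have h4 := rm_nonneg (s + ln s)
  calc (1 : ℝ) = (1 / 2) ^ k * 2 ^ k := by rw [← mul_pow]; norm_num
    _ ≤ _ := mul_le_mul_of_nonneg_left (by linarith) (by positivity)

end Pool.Agent.TH771.PN
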