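import Pool.Agent.TH771.PN.Alg
import Pool.Agent.W900.SQ.Plant
import Pool.Agent.W900.CH.PLev
import Pool.Agent.H628R3.RO.K2
import Pool.Agent.H620R2.Gauge.C
import Pool.Agent.H628R3.RO.A1

/-!
# Writing the messages into a given oracle
-/

set_option autoImplicit false

namespace Pool.Agent.TH771.PN

open Pool.Agent.NPC Pool.Agent.H628R3.RO Filter
open Pool.Agent.W900.SQ (plant)
open Pool.Agent.W900.CH (Close dist finite_short)
open Pool.Agent.H583R2 (str)
open Pool.Agent.TH771.CX (jst)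

/-- a language relative to oracles which depends only on short strings of the oracle -/
def Lcl (f : Oracle → Set (List Bool)) : Prop :=
  ∃ q : Polynomial ℕ, ∀ (A A' : Oracle) (x : List Bool),
    (∀ y : List Bool, y.length ≤ q.eval x.length → A y = A' y) → (x ∈ f A ↔ x ∈ f A')

theorem jc_congr {O : Oracle} {s : ℕ} {μ μ' : ℕ → Bool} (h : ∀ i < ln s, μ i = μ' i) :
    jc O s μ = jc O s μ' := by
  unfold jc cn
  congr 2
  funext d
  by_cases hd : 2 * (lo s + 1) ≤ d.val
  · rw [decide_eq_true hd, Bool.true_and, Bool.true_and]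
    refine h _ ?_
    have h1 := d.isLt
    unfold db at h1
    unfold ln
    omega
  · rw [decide_eq_false hd, Bool.false_and, Bool.false_and]

theorem length_str_lt {m n : ℕ} (h : m + 1 < 2 ^ (n + 1)) : (str m).length ≤ n := by
  have h1 := Pool.Agent.H583R2.le_idx (str m)
  rw [Pool.Agent.H583R2.idx_str] at h1
  have h2 : 2 ^ (str m).length < 2 ^ (n + 1) := lt_of_le_of_lt h1 h
  have h3 := (Nat.pow_lt_pow_iff_right (by norm_num : 1 < 2)).1 h2
  omega

theorem length_str_add {s i : ℕ} (hi : i < ln s) : (str (s + i)).length ≤ lo s + 3 := by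
  apply length_str_lt
  have h1 := lt_two_pow_lo s
  have h2 : lo s < 2 ^ lo s := Nat.lt_two_pow_self
  unfold ln at hi
  have h3 : 2 ^ (lo s + 3 + 1) = 16 * 2 ^ lo s := by ring
  have h4 : 2 ^ (lo s + 1) = 2 * 2 ^ lo s := by ring
  omega

theorem tendsto_lo (j : ℕ) {s : ℕ} (hs : 2 ^ j ≤ s) : j ≤ lo s :=
  Nat.le_log_of_pow_le (by norm_num) (by omega)

theorem exists_large (q : Polynomial ℕ) : ∃ s₁ : ℕ, ∀ s ≥ s₁, ∀ i < ln s,
    q.eval (str (s + i)).length ≤ s := by
  obtain ⟨n0, hn0⟩ := poly_le_two_pow (2 * q.comp (Polynomial.X + 3))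
  refine ⟨2 ^ (n0 + 1), fun s hs i hi => ?_⟩
  have h1 := tendsto_lo _ hs
  have h2 := hn0 (lo s) (by omega)
  have h3 := two_pow_lo s
  have h4 := eval_mono q (length_str_add hi)
  have h5 : (2 * q.comp (Polynomial.X + 3)).eval (lo s) = 2 * q.eval (lo s + 3) := by simp
  rw [h5] at h2
  have h6 : 1 ≤ 2 ^ (n0 + 1) := Nat.one_le_two_pow
  omega

/-- **The construction.** -/
theorem exists_plant (f : ℕ → Oracle → Set (List Bool)) (hf : ∀ e, Lcl (f e)) (O : Oracle)
    {G : ℕ → ℝ} (hG : Tendsto G atTop atTop) :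
    ∃ A : Oracle, Close G O A ∧ PNull A {L | ∃ e, L = f e A} := by
  classical
  choose q hq using hf
  -- the levels
  have hlev : ∀ j : ℕ, ∃ s₁ : ℕ, ∀ s ≥ s₁, j ≤ lo s ∧
      (∀ i < ln s, (q j.unpair.1).eval (str (s + i)).length ≤ s) ∧
      ∀ n, s ≤ n → ((j : ℝ) + 1) ≤ G n := by
    intro j
    obtain ⟨s₁, h1⟩ := exists_large (q j.unpair.1)
    obtain ⟨N, hN⟩ := eventually_atTop.1 (hG.eventually_ge_atTop ((j : ℝ) + 1))
    exact ⟨max (2 ^ j) (max s₁ N), fun s hs => ⟨tendsto_lo j (by omega), h1 s (by omega),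
      fun n hn => hN n (by omega)⟩⟩
  choose s₁ hs₁ using hlev
  obtain ⟨S, hSm, hS⟩ : ∃ S : ℕ → ℕ, StrictMono S ∧ ∀ j, s₁ j ≤ S j := by
    refine ⟨fun j => ∑ i ∈ Finset.range (j + 1), (s₁ i + 1), ?_, ?_⟩
    · refine strictMono_nat_of_lt_succ fun j => ?_
      rw [Finset.sum_range_succ _ (j + 1)]
      omega
    · intro j
      dsimp only
      rw [Finset.sum_range_succ]
      omega
  -- the messages
  obtain ⟨μ, hμ⟩ : ∃ μ : Oracle → ℕ → ℕ → Bool, ∀ A j i,
      μ A j i = decide (str (S j + i) ∈ f j.unpair.1 A) := ⟨_, fun _ _ _ => rfl⟩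
  obtain ⟨A, h1, h2⟩ := plant (ι := ℕ × ℕ) (fun c => PP c.1 c.2)
    (fun c c' h => by
      obtain ⟨h3, h4⟩ := PP_inj h
      exact Prod.ext h3 h4)
    (fun A c => (O (PP c.1 c.2) ^^
      decide (∃ j, c.1 = S j ∧ c.2 = jc O c.1 (μ A j))) = true) (by
      rintro ⟨s, t⟩ A A' hA h0
      replace hA : ∀ y : List Bool, y.length < (PP s t).length → A y = A' y := hA
      have key : (∃ j, s = S j ∧ t = jc O s (μ A j)) ↔ (∃ j, s = S j ∧ t = jc O s (μ A' j)) := by
        refine exists_congr fun j => and_congr_right fun hj => ?_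
        have : jc O s (μ A j) = jc O s (μ A' j) := by
          refine jc_congr fun i hi => ?_
          rw [hμ, hμ, decide_eq_decide]
          rw [hj] at hi
          refine hq _ A A' _ fun y hy => hA y ?_
          have h3 := (hs₁ j (S j) (hS j)).2.1 i hi
          rw [length_PP]
          omega
        rw [this]
      dsimp only at h0 ⊢
      rwa [decide_eq_decide.2 key] at h0) O
  have h1' : ∀ s t, A (PP s t) = (O (PP s t) ^^ decide (∃ j, s = S j ∧ t = jc O s (μ A j))) := by
    intro s t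
    have := h1 (s, t)
    rw [Bool.eq_iff_iff]
    exact this
  have h3 : ∀ j t, A (PP (S j) t) = (O (PP (S j) t) ^^ decide (t = jc O (S j) (μ A j))) := by
    intro j t
    rw [h1']
    congr 1
    rw [decide_eq_decide]
    constructor
    · rintro ⟨j', hj', ht⟩
      rw [hSm.injective hj']
      rw [ht, hj']
    · intro ht
      exact ⟨j, rfl, ht⟩
  have h4 : ∀ y, A y ≠ O y → ∃ j, y = PP (S j) (jc O (S j) (μ A j)) := by
    intro y hy
    by_cases hc : ∃ c : ℕ × ℕ, PP c.1 c.2 = y
    · obtain ⟨⟨s, t⟩, hc⟩ := hc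
      dsimp only at hc
      by_contra hn
      apply hy
      rw [← hc, h1', decide_eq_false, Bool.xor_false]
      rintro ⟨j, hj, ht⟩
      exact hn ⟨j, by rw [← hc, ht, hj]⟩
    · push Not at hc
      exact absurd (h2 y hc) hy
  refine ⟨A, ?_, dn A 0, FF A 0, isFP_FF A 0, fun k w => ⟨dn_nonneg A 0 k w, (dn_step A 0 k w).le⟩,
    fun k => (dn_nil A 0 k).le, fun k r w => ?_, ?_⟩
  · unfold Close
    filter_upwards [hG.eventually_ge_atTop 0] with n hn0
    have hsub : {y : List Bool | y.length ≤ n ∧ A y ≠ O y} ⊆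
        ((Finset.range ⌊G n⌋₊).image fun j => PP (S j) (jc O (S j) (μ A j)) :
          Set (List Bool)) := by
      rintro y ⟨hn, hy⟩
      obtain ⟨j, hj⟩ := h4 y hy
      rw [Finset.coe_image]
      refine ⟨j, ?_, hj.symm⟩
      rw [Finset.mem_coe, Finset.mem_range]
      have h5 : (PP (S j) (jc O (S j) (μ A j))).length ≤ n := by rw [← hj]; exact hn
      rw [length_PP] at h5
      have h6 := (hs₁ j (S j) (hS j)).2.2 n (by omega)
      refine Nat.lt_of_succ_le (Nat.le_floor ?_)
      push_cast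
      exact h6
    have h6 : dist O A n ≤ ⌊G n⌋₊ := by
      unfold Pool.Agent.W900.CH.dist
      refine (Set.ncard_le_ncard hsub (Finset.finite_toSet _)).trans ?_
      rw [Set.ncard_coe_finset]
      refine Finset.card_image_le.trans ?_
      rw [Finset.card_range]
    exact (by exact_mod_cast h6 : (dist O A n : ℝ) ≤ (⌊G n⌋₊ : ℝ)).trans (Nat.floor_le hn0)
  · rw [dya_FF, sub_self, abs_zero]
    positivity
  · rintro k L ⟨e, rfl⟩
    obtain ⟨h5, h6, h7⟩ := hs₁ (Nat.pair e k) _ (hS _)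
    refine ⟨_, one_le_dn (s := S (Nat.pair e k)) (Nat.zero_le _)
      (mk_of_change fun t _ => h3 (Nat.pair e k) t) ((Nat.right_le_pair e k).trans h5)
      fun i hi => ?_⟩
    rw [ms_of_change (fun t _ => h3 (Nat.pair e k) t) hi, hμ, decide_eq_true_iff,
      Nat.unpair_pair]

/-! ### `NP` and `PSPACE` -/

/-- the languages of the pairs of an algorithm and a polynomial -/
def LN (c : Alg × Polynomial ℕ) (A : Oracle) : Set (List Bool) :=
  {x | ∃ w : List Bool, w.length ≤ c.2.eval x.length ∧ c.1.out A (pairBits x w) = some [true]}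

theorem lcl_LN (c : Alg × Polynomial ℕ) : Lcl (LN c) := by
  obtain ⟨qb, hqb⟩ := c.1.out_local
  refine ⟨qb.comp (2 * Polynomial.X + 1 + c.2), fun A A' x hA => ?_⟩
  refine exists_congr fun w => and_congr_right fun hw => ?_
  obtain ⟨Q, -, h2, h3⟩ := hqb A (pairBits x w)
  rw [h3 A' fun y hy => (hA y ?_).symm]
  refine (h2 y hy).trans ?_
  rw [length_pairBits]
  have h4 : (qb.comp (2 * Polynomial.X + 1 + c.2)).eval x.length =
      qb.eval (2 * x.length + 1 + c.2.eval x.length) := by simp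
  rw [h4]
  exact eval_mono qb (by omega)

theorem exists_LN {A : Oracle} {L : Set (List Bool)} (h : IsNP A L) : ∃ c, L = LN c A := by
  obtain ⟨V, p, ⟨M, hM⟩, h⟩ := h
  refine ⟨(M, p), Set.ext fun x => ?_⟩
  rw [h x]
  refine exists_congr fun w => and_congr_right fun _ => ?_
  rw [hM]
  simp

section

open Pool.Agent.H620R2.Gauge

/-- the languages of the pairs of a space-bounded algorithm and a polynomial -/
def LS (c : SAlg × Polynomial ℕ) (b : Polynomial ℕ) (A : Pool.Agent.H628R3.RO.Oracle) :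
    Set (List Bool) :=
  {x | CC.Acc c.1 (CC.cut (b.eval x.length) A) x}

theorem lcl_LS (c : SAlg × Polynomial ℕ) (b : Polynomial ℕ) : Lcl (LS c b) := by
  refine ⟨b, fun A A' x hA => ?_⟩
  have hcut : CC.cut (b.eval x.length) A = CC.cut (b.eval x.length) A' := by
    funext z
    unfold CC.cut
    split_ifs with hz
    · exact hA z hz
    · rfl
  unfold LS
  rw [Set.mem_ofPred_eq, Set.mem_ofPred_eq, hcut]

theorem exists_LS {A : Pool.Agent.H628R3.RO.Oracle} {L : Set (List Bool)} {c : SAlg × Polynomial ℕ}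
    {b : Polynomial ℕ}
    (hb : ∀ x a : List Bool, a.length ≤ c.2.eval x.length →
      (c.1.act (pairBits x a)).length ≤ b.eval x.length)
    (hM : ∀ x, (∀ s, c.1.Reach A x s → s.length ≤ c.2.eval x.length) ∧
      ∃ s z, c.1.Reach A x s ∧ c.1.act (pairBits x s) = true :: z ∧ (x ∈ L ↔ z = [true])) :
    L = LS c b A := by
  ext x
  obtain ⟨hM1, s, z, hs, hz, hL⟩ := hM x
  have hcong : ∀ s, c.1.Reach (CC.cut (b.eval x.length) A) x s ↔ c.1.Reach A x s := by
    refine CC.reach_congr (fun s => s.length ≤ c.2.eval x.length) hM1 ?_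
    intro s q h1 h2
    have h3 := hb x s h1
    rw [h2, List.length_cons] at h3
    unfold CC.cut
    rw [if_pos (by omega)]
  unfold LS
  rw [Set.mem_ofPred_eq]
  constructor
  · intro hx
    refine ⟨s, (hcong s).2 hs, ?_⟩
    rw [hz, hL.1 hx]
  · rintro ⟨t, ht, ht2⟩
    have hst := CC.reach_unique hs ((hcong t).1 ht) ⟨_, hz⟩ ⟨_, ht2⟩
    rw [hst, ht2] at hz
    simp only [List.cons.injEq, true_and] at hz
    exact hL.2 hz.symm

/-- **The upper bound**: every unbounded number of changes can make `NP` and `PSPACE` small. -/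
theorem exists_null (O : Pool.Agent.H628R3.RO.Oracle) {G : ℕ → ℝ} (hG : Tendsto G atTop atTop) :
    ∃ A : Pool.Agent.H628R3.RO.Oracle, Close G O A ∧
      PNull A {L | Pool.Agent.H628R3.RO.IsNP A L ∨ IsPSPACE A L} := by
  classical
  have i1 : Countable (Polynomial ℕ) := CC.poly_countable
  have i2 : Countable SAlg := CC.salg_countable
  have i3 : Countable Pool.Agent.H628R3.RO.Alg := Pool.Agent.H628R3.RO.Alg.countable
  choose b hb using fun c : SAlg × Polynomial ℕ => CC.act_length c.1 c.2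
  obtain ⟨g, hg⟩ := exists_surjective_nat
    ((Pool.Agent.H628R3.RO.Alg × Polynomial ℕ) ⊕ (SAlg × Polynomial ℕ))
  obtain ⟨A, h1, h2⟩ := exists_plant (fun e => Sum.elim (fun c => LN c) (fun c => LS c (b c)) (g e))
    (fun e => by
      cases hge : g e with
      | inl c => simpa using lcl_LN c
      | inr c => simpa using lcl_LS c (b c)) O hG
  refine ⟨A, h1, h2.mono ?_⟩
  rintro L (hL | hL)
  · obtain ⟨c, hc⟩ := exists_LN hL
    obtain ⟨e, he⟩ := hg (Sum.inl c)
    exact ⟨e, by rw [he]; exact hc⟩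
  · obtain ⟨M, p, hM⟩ := hL
    obtain ⟨e, he⟩ := hg (Sum.inr (M, p))
    exact ⟨e, by rw [he]; exact exists_LS (hb (M, p)) hM⟩

end

end Pool.Agent.TH771.PN
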