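import Pool.Agent.TH771.PN.Both

/-!
# The threshold for the measure of `NP`: the theorems
-/

set_option autoImplicit false

namespace Pool.Agent.TH771.PN

open MeasureTheory Filter Pool.Agent.NPC Pool.Agent.H620R2.Gauge
open Pool.Agent.H628R3.RO (randomOracle)
open Pool.Agent.W900.CH (Close)
open Pool.Agent.TH771.CS (Far isFP_finite_iff finite_of_close)
open Pool.Agent.TH93.ML (NullC InE InFew enc law nice_pow)
open Pool.Agent.TH93.GL (NiceT InGuess)

theorem np_ro {A : Oracle} {L : Set (List Bool)} (h : IsNP A L) :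
    Pool.Agent.H628R3.RO.IsNP A L := by
  obtain ⟨V, p, hV, h⟩ := h
  refine ⟨fun z => V (pairBits (unpair z).2 (unpair z).1), p, ?_, fun x => ?_⟩
  · exact Pool.Agent.H628R3.RO.IsFP.comp ((fp_iff A V).2 hV) (Pool.Agent.H628R3.RO.IsFP.of_poly
      (Pool.Agent.H622R2.poly_pairBits (Poly.snd poly_unpair) (Poly.fst poly_unpair)))
  · rw [h x]
    refine exists_congr fun w => and_congr_right fun _ => ?_
    dsimp only
    rw [unpair_pairBits]

theorem NullC.mono {j : ℕ} {A : Oracle} {X Y : Set (Set (List Bool))} (h : NullC j A Y)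
    (hXY : X ⊆ Y) : NullC j A X := by
  obtain ⟨d, F, h1, h2, h3, h4, h5, h6⟩ := h
  exact ⟨d, F, h1, h2, h3, h4, h5, fun k L hL => h6 k L (hXY hL)⟩

theorem null_mono' {A : Oracle} {j : ℕ}
    (h : PNull A {L | Pool.Agent.H628R3.RO.IsNP A L ∨ IsPSPACE A L}) :
    NullC j A {L | IsNP A L ∨ IsPSPACE A L} :=
  (h.mono fun _ hL => hL.imp np_ro id).nullC j

/-- every oracle can be changed on arbitrarily few strings such that `NP` and `PSPACE` have
`p`-measure `0` -/
theorem exists_nullC (O : Oracle) {G : ℕ → ℝ} (hG : Tendsto G atTop atTop) :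
    ∃ A : Oracle, Close G O A ∧ NullC 1 A {L | IsNP A L ∨ IsPSPACE A L} := by
  obtain ⟨A, h1, h2⟩ := exists_null O hG
  exact ⟨A, h1, null_mono' h2⟩

theorem big_np {A : Oracle} (h : Big A) {j : ℕ} (hj : 1 ≤ j) :
    ¬ NullC j A {L | IsNP A L ∧ InE j A L} := by
  intro hn
  refine (h j hj).2 (NullC.mono hn ?_)
  rintro L ⟨⟨c, hc⟩, hE⟩
  exact ⟨(hc.guess).np (nice_pow c j), hE⟩

theorem big_single {A : Oracle} (h : Big A) {j : ℕ} (hj : 1 ≤ j) :
    ∃ L, IsNP A L ∧ ¬ NullC j A {L} := by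
  have hg : NiceT (fun n => n) (fun n => 1 * n ^ (j + 1)) := nice_pow 1 (j + 1)
  obtain ⟨L, h1, h2⟩ := (h j hj).1 _ hg (fun c => by
    filter_upwards [eventually_ge_atTop c] with n hn
    rw [one_mul, pow_succ, mul_comm (n ^ j)]
    exact Nat.mul_le_mul_right _ hn)
  exact ⟨L, (h1.guess).np hg, h2⟩

theorem ae_thr : ∀ᵐ O ∂randomOracle, ∀ G : ℕ → ℝ,
    (¬ Tendsto G atTop atTop → ∀ A : Oracle, Close G O A → Big A) ∧
    (Tendsto G atTop atTop → ∃ A : Oracle, Close G O A ∧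
      NullC 1 A {L | IsNP A L ∨ IsPSPACE A L} ∧ Far A) := by
  filter_upwards [ae_big, ae_null_far] with O h1 h2 G
  refine ⟨fun hG A hA => big_finite (finite_of_close hG hA) h1, fun hG => ?_⟩
  obtain ⟨A, h3, h4, h5⟩ := h2 G hG
  exact ⟨A, h3, null_mono' h4, h5⟩

end Pool.Agent.TH771.PN
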