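import Pool.Agent.TH771.PN.Plant
import Pool.Agent.TH771.CS.Main

/-!
# Few changes make `NP` and `PSPACE` small
-/

set_option autoImplicit false

namespace Pool.Agent.TH771.PN

open MeasureTheory Filter Pool.Agent.H628R3.RO
open Pool.Agent.H620R2.Gauge (IsPSPACE)
open Pool.Agent.W900.CH (Close)
open Pool.Agent.TH771.CS (Far ae_Far id_small)

theorem ae_null_far : ∀ᵐ O ∂randomOracle, ∀ G : ℕ → ℝ, Tendsto G atTop atTop →
    ∃ A : Pool.Agent.H628R3.RO.Oracle, Close G O A ∧ PNull A {L | IsNP A L ∨ IsPSPACE A L} ∧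
      Far A := by
  have h0 := ae_Far (g := fun n => (n : ℝ)) fun ε hε => (id_small hε).frequently
  filter_upwards [h0] with O h3 G hG
  have hG' : Tendsto (fun n : ℕ => min (G n) n) atTop atTop := by
    refine tendsto_atTop.2 fun b => ?_
    filter_upwards [hG.eventually_ge_atTop b,
      (tendsto_natCast_atTop_atTop (R := ℝ)).eventually_ge_atTop b] with n h4 h5
    exact le_min h4 h5
  obtain ⟨A, h4, h5⟩ := exists_null O hG'
  have h6 : Close G O A := by
    unfold Close at h4 ⊢
    filter_upwards [h4] with n hn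
    exact hn.trans (min_le_left _ _)
  have h7 : Close (fun n => (n : ℝ)) O A := by
    unfold Close at h4 ⊢
    filter_upwards [h4] with n hn
    exact hn.trans (min_le_right _ _)
  exact ⟨A, h6, h5, h3 A h7⟩

end Pool.Agent.TH771.PN
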